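import Mathlib

set_option autoImplicit false

/-!
# The local-global property depends on the presentation of a strong Maltsev condition

`Σ₁ = {c(x) ≈ c(y)}` and `Σ₂ = {u(x, f(x, y)) ≈ c(x), f(x, y) ≈ f(y, x), u(x, z) ≈ u(y, z)}` are
equivalent (both say that there is a constant unary term operation). `Σ₁` has the local-global
property, but `Σ₂` does not have it.
-/

namespace Pool.Agent.Results.MP_b44554_al.PresentationDependence

universe u

/-- Terms over the variables `V` in operation symbols `f` of arity `ar f`. -/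
inductive Tm {S : Type} (ar : S → ℕ) (V : Type) : Type
  | var : V → Tm ar V
  | app : (f : S) → (Fin (ar f) → Tm ar V) → Tm ar V

/-- A strong Maltsev condition: finitely many operation symbols `0, …, m - 1` with their arities,
and a finite set of identities `s ≈ t` between terms in the variables `0, …, n - 1`. -/
structure Maltsev where
  /-- the number of operation symbols -/
  m : ℕ
  /-- the arities of the operation symbols -/
  ar : Fin m → ℕ
  /-- the number of variables -/
  n : ℕ
  /-- the identities -/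
  ids : Set (Tm ar (Fin n) × Tm ar (Fin n))
  /-- there are finitely many identities -/
  finite : ids.Finite

/-- A (universal) algebra: a nonempty set with basic operations, of finite arities, indexed by an
arbitrary set. -/
structure Alg : Type (u + 1) where
  /-- the underlying set -/
  A : Type u
  /-- it is not empty -/
  nonempty : Nonempty A
  /-- the index set of the basic operations -/
  ι : Type u
  /-- the arities of the basic operations -/
  ar : ι → ℕ
  /-- the basic operations -/
  op : (i : ι) → (Fin (ar i) → A) → A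

/-- The clone of term operations: the smallest set of operations that contains the projections and
is closed under composition with basic operations. -/
inductive Clo (M : Alg.{u}) (r : ℕ) : ((Fin r → M.A) → M.A) → Prop
  | proj (j : Fin r) : Clo M r (fun x => x j)
  | comp (i : M.ι) (g : Fin (M.ar i) → (Fin r → M.A) → M.A) (hg : ∀ j, Clo M r (g j)) :
      Clo M r (fun x => M.op i (fun j => g j x))

/-- Value of a term under an interpretation `I` of the symbols and an assignment `x` of the
variables. -/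
def Tm.eval {S : Type} {ar : S → ℕ} {V : Type} {A : Type u} (I : (f : S) → (Fin (ar f) → A) → A)
    (x : V → A) : Tm ar V → A
  | var v => x v
  | app f t => I f (fun j => (t j).eval I x)

/-- `M` satisfies `Σ` on `F ⊆ Aⁿ`. -/
def SatOn (M : Alg.{u}) (S : Maltsev) (F : Set (Fin S.n → M.A)) : Prop :=
  ∃ I : (f : Fin S.m) → (Fin (S.ar f) → M.A) → M.A, (∀ f, Clo M (S.ar f) (I f)) ∧
    ∀ i ∈ S.ids, ∀ x ∈ F, i.1.eval I x = i.2.eval I x

/-- `M ⊨ Σ`. -/
def Sat (M : Alg.{u}) (S : Maltsev) : Prop := SatOn M S Set.univ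

/-- The `k`-local-global property. The condition `|A|ⁿ ≥ k` says that there is a set `F ⊆ Aⁿ` with
exactly `k` elements. -/
def KLocalGlobal (k : ℕ) (S : Maltsev) : Prop :=
  ∀ M : Alg.{u}, (∃ F : Set (Fin S.n → M.A), F.Finite ∧ F.ncard = k) →
    (∀ F : Set (Fin S.n → M.A), F.Finite → F.ncard = k → SatOn M S F) →
    ∀ F : Set (Fin S.n → M.A), F.Finite → SatOn M S F

/-- The local-global property. -/
def LocalGlobal (S : Maltsev) : Prop := ∃ k : ℕ, 1 ≤ k ∧ KLocalGlobal.{u} k S

/-- `Σ₁` and `Σ₂` are equivalent: they hold in the same algebras. -/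
def Equivalent (S₁ S₂ : Maltsev) : Prop := ∀ M : Alg.{u}, Sat M S₁ ↔ Sat M S₂

/-! ### Clones -/

lemma Clo.subst {M : Alg.{u}} {r s : ℕ} {g : (Fin s → M.A) → M.A} (hg : Clo M s g)
    (h : Fin s → (Fin r → M.A) → M.A) (hh : ∀ j, Clo M r (h j)) :
    Clo M r (fun x => g (fun j => h j x)) := by
  induction hg with
  | proj j => exact hh j
  | comp i g _ ih => exact Clo.comp i (fun j x => g j (fun l => h l x)) ih

/-! ### The two conditions -/

/-- the arities for `Σ₁`: one unary symbol -/
def ar1 : Fin 1 → ℕ := fun _ => 1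

/-- `Σ₁ = {c(x) ≈ c(y)}` -/
def S1 : Maltsev where
  m := 1
  ar := ar1
  n := 2
  ids := {(Tm.app 0 (fun _ => Tm.var 0), Tm.app 0 (fun _ => Tm.var 1))}
  finite := Set.finite_singleton _

/-- the arities for `Σ₂`: a unary symbol `c` and two binary symbols `f` and `u` -/
def ar2 : Fin 3 → ℕ
  | 0 => 1
  | 1 => 2
  | 2 => 2

/-- the term `c(s)` -/
def cT (s : Tm ar2 (Fin 3)) : Tm ar2 (Fin 3) := Tm.app 0 (fun _ => s)
/-- the term `f(s, t)` -/
def fT (s t : Tm ar2 (Fin 3)) : Tm ar2 (Fin 3) := Tm.app 1 (![s, t] : Fin 2 → _)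
/-- the term `u(s, t)` -/
def uT (s t : Tm ar2 (Fin 3)) : Tm ar2 (Fin 3) := Tm.app 2 (![s, t] : Fin 2 → _)

/-- `Σ₂ = {u(x, f(x, y)) ≈ c(x), f(x, y) ≈ f(y, x), u(x, z) ≈ u(y, z)}` -/
def S2 : Maltsev where
  m := 3
  ar := ar2
  n := 3
  ids := {(uT (Tm.var 0) (fT (Tm.var 0) (Tm.var 1)), cT (Tm.var 0)),
    (fT (Tm.var 0) (Tm.var 1), fT (Tm.var 1) (Tm.var 0)),
    (uT (Tm.var 0) (Tm.var 2), uT (Tm.var 1) (Tm.var 2))}
  finite := by simp

lemma satOn_S1 (M : Alg.{u}) (F : Set (Fin 2 → M.A)) : SatOn M S1 F ↔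
    ∃ c : M.A → M.A, Clo M 1 (fun x => c (x 0)) ∧ ∀ x ∈ F, c (x 0) = c (x 1) := by
  constructor
  · rintro ⟨(I : (f : Fin 1) → (Fin (ar1 f) → M.A) → M.A),
      (h1 : ∀ f : Fin 1, Clo M (ar1 f) (I f)), h2⟩
    refine ⟨fun a => I 0 (fun _ => a), ?_, fun x hx => h2 _ rfl x hx⟩
    have h3 : Clo M 1 (I 0) := h1 0
    exact h3.subst (fun _ x => x 0) (fun _ => Clo.proj 0)
  · rintro ⟨c, h1, h2⟩
    refine ⟨fun f x => c (x (0 : Fin 1)), fun f => h1, ?_⟩
    rintro i rfl x hx
    exact h2 x hx

lemma satOn_S2 (M : Alg.{u}) (F : Set (Fin 3 → M.A)) : SatOn M S2 F ↔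
    ∃ (c : M.A → M.A) (f v : M.A → M.A → M.A), Clo M 1 (fun x => c (x 0)) ∧
      Clo M 2 (fun x => f (x 0) (x 1)) ∧ Clo M 2 (fun x => v (x 0) (x 1)) ∧
      ∀ x ∈ F, v (x 0) (f (x 0) (x 1)) = c (x 0) ∧ f (x 0) (x 1) = f (x 1) (x 0) ∧
        v (x 0) (x 2) = v (x 1) (x 2) := by
  constructor
  · rintro ⟨(I : (f : Fin 3) → (Fin (ar2 f) → M.A) → M.A),
      (h1 : ∀ f : Fin 3, Clo M (ar2 f) (I f)), h2⟩
    have c1 : Clo M 1 (I 0) := h1 0
    have c2 : Clo M 2 (I 1) := h1 1
    have c3 : Clo M 2 (I 2) := h1 2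
    have hv : ∀ x : Fin 2 → M.A, (fun j : Fin 2 => ![fun x : Fin 2 → M.A => x 0,
        fun x : Fin 2 → M.A => x 1] j x) = ![x 0, x 1] := by
      intro x; funext j; fin_cases j <;> rfl
    have hh : ∀ j, Clo M 2 (![fun x : Fin 2 → M.A => x 0, fun x : Fin 2 → M.A => x 1] j) := by
      intro j; fin_cases j
      · exact Clo.proj 0
      · exact Clo.proj 1
    refine ⟨fun a => I 0 (fun _ => a), fun a b => I 1 (![a, b] : Fin 2 → M.A),
      fun a b => I 2 (![a, b] : Fin 2 → M.A), ?_, ?_, ?_, ?_⟩
    · exact c1.subst (fun _ x => x 0) (fun _ => Clo.proj 0)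
    · have := c2.subst _ hh
      simpa only [hv] using this
    · have := c3.subst _ hh
      simpa only [hv] using this
    · intro x hx
      have hev : ∀ (s t : Tm ar2 (Fin 3)), (fun j : Fin 2 => (![s, t] j).eval I x) =
          ![s.eval I x, t.eval I x] := by
        intro s t; funext j; fin_cases j <;> rfl
      have e1 := h2 (uT (Tm.var 0) (fT (Tm.var 0) (Tm.var 1)), cT (Tm.var 0)) (Or.inl rfl) x hx
      have e2 := h2 (fT (Tm.var 0) (Tm.var 1), fT (Tm.var 1) (Tm.var 0)) (Or.inr (Or.inl rfl)) x hx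
      have e3 := h2 (uT (Tm.var 0) (Tm.var 2), uT (Tm.var 1) (Tm.var 2)) (Or.inr (Or.inr rfl)) x hx
      change I 2 (fun j : Fin 2 => (![Tm.var 0, fT (Tm.var 0) (Tm.var 1)] j).eval I x) =
        I 0 (fun _ => x 0) at e1
      change I 1 (fun j : Fin 2 => (![Tm.var 0, Tm.var 1] j).eval I x) =
        I 1 (fun j : Fin 2 => (![Tm.var 1, Tm.var 0] j).eval I x) at e2
      change I 2 (fun j : Fin 2 => (![Tm.var 0, Tm.var 2] j).eval I x) =
        I 2 (fun j : Fin 2 => (![Tm.var 1, Tm.var 2] j).eval I x) at e3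
      rw [hev] at e1
      rw [hev, hev] at e2
      rw [hev, hev] at e3
      have hf : (fT (Tm.var 0) (Tm.var 1)).eval I x = I 1 (![x 0, x 1] : Fin 2 → M.A) := by
        change I 1 (fun j : Fin 2 => (![Tm.var 0, Tm.var 1] j).eval I x) = _
        rw [hev]; rfl
      rw [hf] at e1
      exact ⟨e1, e2, e3⟩
  · rintro ⟨c, f, v, h1, h2, h3, h4⟩
    let I : (i : Fin 3) → (Fin (ar2 i) → M.A) → M.A := fun i => match i with
      | 0 => fun x : Fin 1 → M.A => c (x 0)
      | 1 => fun x : Fin 2 → M.A => f (x 0) (x 1)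
      | 2 => fun x : Fin 2 → M.A => v (x 0) (x 1)
    refine ⟨I, ?_, ?_⟩
    · intro (i : Fin 3)
      match i with
      | 0 => exact h1
      | 1 => exact h2
      | 2 => exact h3
    · intro i hi x hx
      simp only [S2] at hi
      obtain ⟨e1, e2, e3⟩ := h4 x hx
      rcases hi with rfl | rfl | rfl
      · exact e1
      · exact e2
      · exact e3

/-- both conditions say that there is a constant unary term operation -/
theorem equivalent : Equivalent.{u} S1 S2 := by
  intro M
  refine (satOn_S1 M Set.univ).trans (Iff.trans ?_ (satOn_S2 M Set.univ).symm)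
  constructor
  · rintro ⟨c, h1, h2⟩
    have hc : ∀ a b, c a = c b := fun a b => by simpa using h2 ![a, b] trivial
    refine ⟨c, fun a _ => c a, fun a _ => c a, h1, h1.subst (fun _ x => x 0) (fun _ => Clo.proj 0),
      h1.subst (fun _ x => x 0) (fun _ => Clo.proj 0), fun x _ => ⟨rfl, hc _ _, hc _ _⟩⟩
  · rintro ⟨c, f, v, h1, -, -, h4⟩
    refine ⟨c, h1, fun x _ => ?_⟩
    have key : ∀ a b d : M.A, v a (f a b) = c a ∧ f a b = f b a ∧ v a d = v b d := fun a b d => by
      simpa using h4 ![a, b, d] trivial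
    generalize x 0 = a
    generalize x 1 = b
    calc c a = v a (f a b) := (key a b a).1.symm
      _ = v b (f a b) := (key a b (f a b)).2.2
      _ = v b (f b a) := by rw [(key a b a).2.1]
      _ = c b := (key b a a).1

theorem localGlobal_S1 : LocalGlobal.{u} S1 := by
  refine ⟨1, le_rfl, ?_⟩
  intro M _ h (F : Set (Fin 2 → M.A)) hF
  have hpair : ∀ a b : M.A, ∃ c : M.A → M.A, Clo M 1 (fun x => c (x 0)) ∧ c a = c b := by
    intro a b
    obtain ⟨c, h1, h2⟩ := (satOn_S1 M _).1
      (h {(![a, b] : Fin 2 → M.A)} (Set.finite_singleton _) (Set.ncard_singleton _))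
    exact ⟨c, h1, by simpa using h2 _ rfl⟩
  refine (satOn_S1 M F).2 ?_
  induction F, hF using Set.Finite.induction_on with
  | empty => exact ⟨fun a => a, Clo.proj 0, by simp⟩
  | @insert a F _ _ ih =>
    obtain ⟨c, h1, h2⟩ := ih
    obtain ⟨d, h3, h4⟩ := hpair (c (a 0)) (c (a 1))
    refine ⟨fun x => d (c x), h3.subst (fun _ x => c (x 0)) (fun _ => h1), ?_⟩
    rintro x (rfl | hx)
    · exact h4
    · exact congrArg d (h2 x hx)

/-! ### The algebra with all idempotent operations -/

/-- the algebra on a set with all idempotent operations -/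
def idem (A : Type u) [Nonempty A] : Alg.{u} where
  A := A
  nonempty := inferInstance
  ι := Σ r : ℕ, {g : (Fin r → A) → A // ∀ a, g (fun _ => a) = a}
  ar := fun i => i.1
  op := fun i => i.2.1

lemma clo_idem (A : Type u) [Nonempty A] (r : ℕ) (g : (Fin r → A) → A) :
    Clo (idem A) r g ↔ ∀ a, g (fun _ => a) = a := by
  constructor
  · intro h
    have key : ∀ (M : Alg.{u}) (hM : ∀ (i : M.ι) (a : M.A), M.op i (fun _ => a) = a)
        (r : ℕ) (g : (Fin r → M.A) → M.A), Clo M r g → ∀ a, g (fun _ => a) = a := by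
      intro M hM r g h
      induction h with
      | proj j => intro a; rfl
      | comp i g _ ih =>
        intro a
        have : (fun j => g j (fun _ => a)) = fun _ => a := funext fun j => ih j a
        change M.op i (fun j => g j (fun _ => a)) = a
        rw [this]
        exact hM i a
    exact key (idem A) (fun i a => i.2.2 a) r g h
  · intro h
    exact Clo.comp (M := idem A) ⟨r, g, h⟩ (fun j x => x j) (fun j => Clo.proj j)

theorem not_localGlobal_S2 : ¬ LocalGlobal.{u} S2 := by
  classical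
  rintro ⟨k, hk, h⟩
  obtain ⟨A, hA⟩ : ∃ A : Type u, A = ULift.{u} (Fin (3 * k + 1)) := ⟨_, rfl⟩
  have hfin : Finite A := by rw [hA]; infer_instance
  have hcard : Nat.card A = 3 * k + 1 := by rw [hA]; simp
  have hne : Nonempty A := by rw [hA]; exact ⟨⟨0⟩⟩
  have hfin3 : Finite (Fin 3 → A) := inferInstance
  have hall := h (idem A) ?_ ?_ Set.univ (Set.toFinite (Set.univ : Set (Fin 3 → A)))
  · -- contradiction
    obtain ⟨c, hc, hc2⟩ := (satOn_S1 (idem A) Set.univ).1 ((equivalent (idem A)).2 hall)
    replace hc := (clo_idem A 1 _).1 hc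
    have hsub : Subsingleton A := by
      refine ⟨fun a b => ?_⟩
      have h2 : c a = c b := hc2 ![a, b] trivial
      have h3 : c a = a := hc a
      have h4 : c b = b := hc b
      exact h3.symm.trans (h2.trans h4)
    have := Finite.card_le_one_iff_subsingleton.2 hsub
    omega
  · -- there are enough elements
    have h1 : k ≤ (Set.univ : Set (Fin 3 → A)).ncard := by
      rw [Set.ncard_univ, Nat.card_fun, hcard, Nat.card_eq_fintype_card, Fintype.card_fin]
      calc k ≤ 3 * k + 1 := by omega
        _ ≤ (3 * k + 1) ^ 3 := Nat.le_self_pow (by norm_num) _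
    obtain ⟨F, -, hF⟩ := Set.exists_subset_card_eq h1
    exact ⟨F, Set.toFinite F, hF⟩
  · -- local satisfaction
    intro (F : Set (Fin 3 → A)) _ hFk
    refine (satOn_S2 (idem A) F).2 ?_
    have hB : ∃ o : A, ∀ x ∈ F, ∀ j, x j ≠ o := by
      by_contra hcon
      push Not at hcon
      have hF : F.Finite := Set.toFinite F
      have h1 : (Set.univ : Set A) ⊆ ⋃ j : Fin 3, (fun x : Fin 3 → A => x j) '' F := by
        intro o _
        obtain ⟨x, hx, j, hj⟩ := hcon o
        exact Set.mem_iUnion.2 ⟨j, x, hx, hj⟩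
      have h2 := Set.ncard_le_ncard h1 (Set.toFinite _)
      rw [Set.ncard_univ, hcard] at h2
      have h3 : (⋃ j : Fin 3, (fun x : Fin 3 → A => x j) '' F).ncard ≤
          ∑ j : Fin 3, ((fun x : Fin 3 → A => x j) '' F).ncard := by
        have h4 : (⋃ j : Fin 3, (fun x : Fin 3 → A => x j) '' F) =
            (fun x : Fin 3 → A => x 0) '' F ∪ (fun x : Fin 3 → A => x 1) '' F ∪
              (fun x : Fin 3 → A => x 2) '' F := by
          ext a
          simp only [Set.mem_iUnion, Set.mem_union]
          constructor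
          · rintro ⟨j, hj⟩
            fin_cases j
            · exact Or.inl (Or.inl hj)
            · exact Or.inl (Or.inr hj)
            · exact Or.inr hj
          · rintro ((h | h) | h)
            · exact ⟨0, h⟩
            · exact ⟨1, h⟩
            · exact ⟨2, h⟩
        rw [h4, Fin.sum_univ_three]
        exact (Set.ncard_union_le _ _).trans (Nat.add_le_add_right (Set.ncard_union_le _ _) _)
      have h5 : ∀ j : Fin 3, ((fun x : Fin 3 → A => x j) '' F).ncard ≤ k := fun j => by
        rw [← hFk]; exact Set.ncard_image_le hF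
      rw [Fin.sum_univ_three] at h3
      have := h5 0
      have := h5 1
      have := h5 2
      omega
    obtain ⟨o, ho⟩ := hB
    have key : ∀ x : Fin 3 → A, x ∈ F →
        ((if (if x 0 = x 1 then x 0 else o) = o then x 0 else (if x 0 = x 1 then x 0 else o)) = x 0
          ∧ (if x 0 = x 1 then x 0 else o) = (if x 1 = x 0 then x 1 else o) ∧
          (if x 2 = o then x 0 else x 2) = if x 2 = o then x 1 else x 2) := by
      intro x hx
      have h0 : x 0 ≠ o := ho x hx 0
      have h2 : x 2 ≠ o := ho x hx 2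
      refine ⟨?_, ?_, ?_⟩
      · by_cases h : x 0 = x 1
        · rw [if_pos h, if_neg h0]
        · rw [if_neg h, if_pos rfl]
      · by_cases h : x 0 = x 1
        · rw [if_pos h, if_pos h.symm, h]
        · rw [if_neg h, if_neg (Ne.symm h)]
      · rw [if_neg h2, if_neg h2]
    exact ⟨fun a => a, fun a b : A => if a = b then a else o,
      fun a b : A => if b = o then a else b, Clo.proj (M := idem A) 0,
      (clo_idem A 2 _).2 fun a => if_pos rfl, (clo_idem A 2 _).2 fun a => ite_self a, key⟩

/-- There are equivalent strong Maltsev conditions one of which has the local-global property while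
the other does not. -/
theorem result : ∃ S₁ S₂ : Maltsev, Equivalent.{u} S₁ S₂ ∧ LocalGlobal.{u} S₁ ∧
    ¬ LocalGlobal.{u} S₂ :=
  ⟨S1, S2, equivalent, localGlobal_S1, not_localGlobal_S2⟩

end Pool.Agent.Results.MP_b44554_al.PresentationDependence
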